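import Pool.Agent.Helper40_ZOL.Stmts

/-!
# VLF (MP_a7acc9_gt): knot invariants with values in `ℤ / p ^ k` lift, with a type linear in the exponent

Target.  `v : ZK →+ ZMod (p ^ k)` of type `d` (that is `F (d + 1) ≤ ker v`).  Let `V K` be the
representative of `v K` in `[0, p ^ k)`, an integer valued function on knots.  For every `a ≥ 0` the
reduction of `V` modulo `p ^ (k + a)` is an invariant of type `d * Dg p k a`, where
`Dg p k a = p ^ (k - 1) * (1 + (p - 1) * a)` (so `Dg p k 1 = p ^ k`).  By duality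
`p ^ a x ∈ F (d * Dg p k a + 1) + p ^ (k + a) ZK` implies `x ∈ F (d + 1) + p ^ k ZK`, and the quotient of
`ZK` by `⋂_(d, N) (F d + N ZK)` is torsion free.

Paper proof.  On a cube of crossing changes `v` is `∑ (A ⊆ S) c A` with `c A = 0` for `|A| > d`; lift
the `c A` to representatives in `[0, p ^ k)`: this gives `h : cube → ℕ` of degree `≤ d` lifting `v`, and
`V = (h % p ^ k)` on the cube.  Newton expansion `x % p ^ k = ∑_j (Δ^j (· % p ^ k)) (0) binom x j`,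
where `p ^ (k + a) ∣ Δ^j (· % p ^ k)` for `j > Dg p k a` (an argument in the group ring of the cyclic
group of order `p ^ k`), and `binom (h S) j` has degree `≤ d j`.

File `Pool/Agent/HelperNN_VLF/XXX.lean`, namespace `Pool.Agent.VLF.HNN`,
theorem `xxx (hypotheses = column uses, in this order) : XxxStmt`.
-/

namespace Pool.Agent.VLF

open Pool.Agent.ZOL Finset

/-- The degree of the function `x ↦ x % p ^ k` with values in `ℤ / p ^ (k + a)`. -/
def Dg (p k a : ℕ) : ℕ := p ^ (k - 1) * (1 + (p - 1) * a)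

/-- The forward difference of a sequence. -/
def dlt (f : ℕ → ℤ) : ℕ → ℤ := fun x => f (x + 1) - f x

/-- POW.  Let `R` be a commutative ring, `p` prime, `k ≥ 1`, `(1 + y) ^ (p ^ k) = 1`.  Then
`y ^ (p ^ (k - 1) * (1 + (p - 1) * a))` is divisible by `p ^ a`.
Proof.  Put `Q = p ^ (k - 1)`, `z = (1 + y) ^ Q - 1`, so `(1 + z) ^ p = 1` (`p ^ k = Q * p`).
Binomial theorem: `z ^ p + ∑ (i = 1, .., p - 1) binom p i z ^ i = 0`, and `p ∣ binom p i`
(`Nat.Prime.dvd_choose_self`), hence `z ^ p = p * (z * u)` for some `u`.  Induction on `a`: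
`z ^ (1 + (p - 1) * a) = p ^ a * (z * u ^ a)`
(step: multiply by `z ^ (p - 1)` and use `z * z ^ (p - 1) = z ^ p = p * z * u`).
Next `y ^ Q = z + p * w` for some `w`: `(1 + y) ^ Q ≡ 1 + y ^ Q` modulo `p` for `Q` a power of `p`
(`add_pow_char_pow` in `R / p`, or `exists_add_pow_prime_pow_eq`).  Expand
`(z + p * w) ^ (1 + (p - 1) * a)`: the term with `(p * w) ^ b` is divisible by `p ^ a`:
if `b ≥ a` this is clear; if `b < a` the exponent of `z` is
`1 + (p - 1) * a - b ≥ 1 + (p - 1) * (a - b)`, so `z ^ ..` is divisible by `p ^ (a - b)`. -/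
def PowStmt : Prop :=
  ∀ (R : Type) [CommRing R] (p k : ℕ), p.Prime → 1 ≤ k → ∀ y : R, (1 + y) ^ (p ^ k) = 1 →
    ∀ a : ℕ, ∃ r : R, y ^ (p ^ (k - 1) * (1 + (p - 1) * a)) = (p : R) ^ a * r

/-- PER (uses POW).  A sequence `f : ℕ → ℤ` of period `p ^ k`: `p ^ a` divides its `J`-th difference if
`J ≥ p ^ (k - 1) * (1 + (p - 1) * a)`.
Proof.  Use POW for `R = ℤ[X] / ((1 + X) ^ (p ^ k) - 1)` and `y = X`: in `ℤ[X]`
`X ^ (p ^ (k - 1) * (1 + (p - 1) * a)) = A * ((1 + X) ^ (p ^ k) - 1) + p ^ a * B`.  Let `X` act on the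
sequences as `dlt` (`Polynomial.aeval` in `Module.End ℤ (ℕ → ℤ)`), then `1 + X` is the shift and
`(1 + X) ^ (p ^ k) - 1` kills `f`.  For larger `J`: the difference of a sequence divisible by `p ^ a` is
divisible by `p ^ a`.
(Alternative: `R` = the commutative subring generated by the shift, or prove POW first for the quotient
and copy the equation.) -/
def PerStmt : Prop :=
  ∀ (p k a J : ℕ), p.Prime → 1 ≤ k → ∀ f : ℕ → ℤ, (∀ x, f (x + p ^ k) = f x) →
    p ^ (k - 1) * (1 + (p - 1) * a) ≤ J → ∀ x, ((p : ℤ) ^ a) ∣ dlt^[J] f x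

/-- STD (uses PER).  The standard representative: for `j > Dg p k a` the `j`-th difference of
`x ↦ x % p ^ k` is divisible by `p ^ (k + a)`.
Proof.  `dlt f = 1 - p ^ k * δ`, `δ x = 1` if `x % p ^ k = p ^ k - 1` and `0` otherwise (period `p ^ k`).
Write `j = i + 1`, `i ≥ Dg p k a ≥ 1`: `dlt^[j] f = dlt^[i] (1 - p ^ k * δ) = - p ^ k * dlt^[i] δ`
and PER. -/
def StdStmt : Prop :=
  ∀ (p k a j : ℕ), p.Prime → 1 ≤ k → Dg p k a < j →
    ∀ x, ((p : ℤ) ^ (k + a)) ∣ dlt^[j] (fun y : ℕ => ((y % p ^ k : ℕ) : ℤ)) x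

/-- NEW.  Newton expansion at `0` (Mathlib: `shift_eq_sum_fwdDiff_iter` with `h = 1`, `y = 0`;
`dlt` is `fwdDiff 1`).  -/
def NewStmt : Prop :=
  ∀ (f : ℕ → ℤ) (x : ℕ), f x = ∑ j ∈ range (x + 1), (x.choose j : ℤ) * dlt^[j] f 0

/-- CMP (uses NEW; Helper25_ZOL.Deg has the rows DEG1, DEG2, DEG3 of ZOL).
Composition.  `h : Finset ℕ → ℕ` of degree `≤ d`, `f : ℕ → ℤ` with `n ∣ dlt^[j] f 0` for `j > D`.  Then
the alternating sums of `f ∘ h` over cubes of dimension `> d * D` are divisible by `n`.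
Proof.  Let `A` be a finite set with more than `d * D` elements and `N` a bound for `h B`, `B ⊆ A`.
Then `f (h B) = ∑ (j ≤ N) binom (h B) j * dlt^[j] f 0` for `B ⊆ A` (NEW; `binom x j = 0` for `j > x`).
The terms with `j > D` are divisible by `n`.  For `j ≤ D` the function `S ↦ binom (h S) j` has degree
`≤ d * j ≤ d * D` by DEG2 (`Ring.choose_natCast`), so its alternating sum over `A` is `0`. -/
def CmpStmt : Prop :=
  ∀ (d D : ℕ) (n : ℤ) (h : Finset ℕ → ℕ) (f : ℕ → ℤ), Deg d (fun S => (h S : ℤ)) →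
    (∀ j, D < j → n ∣ dlt^[j] f 0) →
    ∀ A : Finset ℕ, d * D < A.card → n ∣ ∑ B ∈ A.powerset, (-1 : ℤ) ^ B.card * f (h B)

/-- LFT.  Lifting of a function of degree `≤ d` with values in `ZMod q` to a function of degree `≤ d` with
values in `ℕ`.
Proof.  `c A = ∑ (B ⊆ A) (-1) ^ (|A| + |B|) g B` is `0` for `|A| > d`; `g S = ∑ (A ⊆ S) c A` (Moebius
inversion in `ZMod q`; copy the proof of DEG3 in Helper25_ZOL.Deg, or use
`Finset.sum_powerset_neg_one_pow_card`-type lemmas).  Put `h S = ∑ (A ⊆ S) (c A).val`.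
`Deg d h`: the alternating sum over `B ⊆ A'` of `∑ (A ⊆ B) (c A).val` is
`± (c A').val = 0` for `|A'| > d`. -/
def LftStmt : Prop :=
  ∀ (q d : ℕ) (g : Finset ℕ → ZMod q), 0 < q →
    (∀ A : Finset ℕ, d < A.card → ∑ B ∈ A.powerset, (-1 : ℤ) ^ B.card • g B = 0) →
    ∃ h : Finset ℕ → ℕ, Deg d (fun S => (h S : ℤ)) ∧ ∀ S, (h S : ZMod q) = g S

/-- CUB (Helper25_ZOL.Fant has `F (d + 1) ≤ F d`).  An invariant of type `d` on the cube of all crossing
changes of a diagram.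
Proof.  If `A ⊆ labels w` the sum is `v (alt A w)`, and `alt A w ∈ F A.card ≤ F (d + 1)`.  Otherwise choose
`c ∈ A`, `c ∉ labels w`: `flip (insert c B) w = flip B w` (`flip_congr`) and the sum over
`B ⊆ A` is a sum over `B ⊆ A \ {c}` of `(-1) ^ |B| (v B - v B) = 0`
(`Finset.sum_powerset_insert`). -/
def CubStmt : Prop :=
  ∀ (q d : ℕ) (v : ZK →+ ZMod q), (∀ x ∈ F (d + 1), v x = 0) →
    ∀ w : Word, IsGauss w → Planar (shadow w) →
      ∀ A : Finset ℕ, d < A.card →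
        ∑ B ∈ A.powerset, (-1 : ℤ) ^ B.card • v (kn (flip B w)) = 0

/-- TYP (uses STD, CMP, LFT, CUB; Helper24_ZOL.GFLIP has `IsGauss (flip S w)`, Kit has `shadow_flip`).
The standard representative of an invariant of type `d` with values in `ℤ / p ^ k` is, modulo
`p ^ (k + a)`, of type `d * Dg p k a`.
Here `Finsupp.liftAddHom (fun K => (AddMonoidHom.mulRight c))`-like constructions are avoided: `V` is
the integer linear extension of `K ↦ (v K).val`, and the claim is that `p ^ (k + a)` divides its values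
on `F (d * Dg p k a + 1)`.
Proof.  It is enough to treat a generator `alt C w`, `|C| = d * Dg p k a + 1`
(`AddSubgroup.closure_induction`).  CUB and LFT give `h : Finset ℕ → ℕ` of degree `≤ d` with
`(h S : ZMod (p ^ k)) = v (kn (flip S w))`.  `V (kn (flip S w)) = (v (kn (flip S w))).val = h S % p ^ k`
(`ZMod.val_natCast`; `kn (flip S w)` is a basis element).  So `V (alt C w)` is
`∑ (S ⊆ C) (-1) ^ |S| (h S % p ^ k)`, divisible by `p ^ (k + a)` by CMP (with `D = Dg p k a`) and STD. -/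
def TypStmt : Prop :=
  ∀ (p k a d : ℕ), p.Prime → 1 ≤ k → ∀ v : ZK →+ ZMod (p ^ k), (∀ x ∈ F (d + 1), v x = 0) →
    ∀ V : ZK →+ ℤ, (∀ K : Knot, V (Finsupp.single K 1) = ((v (Finsupp.single K 1)).val : ℤ)) →
      ∀ x ∈ F (d * Dg p k a + 1), ((p : ℤ) ^ (k + a)) ∣ V x

/-- DUA.  Homomorphisms to `ℤ / n` separate the elements of an abelian group killed by `n`; form for
subgroups: if `x ∉ G + n H` there is a homomorphism `H → ℤ / n` which kills `G` but not `x`.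
Proof.  `A = H ⧸ (G ⊔ n H)` is killed by `n` and the class of `x` is not `0`.  There is a character
`A → ℚ/ℤ` (Mathlib: `CharacterModule.exists_character_apply_ne_zero_of_ne_zero`) which is not `0` on it;
its values are killed by `n`, hence in `(1/n) ℤ / ℤ ≅ ZMod n`
(for `u` in `ℚ/ℤ` with `n u = 0` write `u = b / n`).  (Alternative: Zorn's lemma, or
`Module.Baer` / injectivity of `ZMod n` over itself.) -/
def DuaStmt : Prop :=
  ∀ (H : Type) [AddCommGroup H] (G : AddSubgroup H) (n : ℕ), 0 < n → ∀ x : H,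
    (∀ φ : H →+ ZMod n, (∀ y ∈ G, φ y = 0) → φ x = 0) →
      ∃ g ∈ G, ∃ y : H, x = g + n • y

/-- SAT (uses TYP, DUA).  `p ^ a x ∈ F (d * Dg p k a + 1) + p ^ (k + a) ZK` implies
`x ∈ F (d + 1) + p ^ k ZK`.
Proof.  By DUA it is enough to show `v x = 0` for all `v : ZK →+ ZMod (p ^ k)` which kill `F (d + 1)`.  Let
`V : ZK →+ ℤ` be the linear extension of `K ↦ (v K).val` (`Finsupp.liftAddHom`); `v x` is the class of
`V x` (both are additive, check on `single K n`).  `p ^ a V x = V g + p ^ (k + a) V y` is divisible by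
`p ^ (k + a)` (TYP), so `p ^ k ∣ V x` and `v x = 0`. -/
def SatStmt : Prop :=
  ∀ (p k a d : ℕ), p.Prime → 1 ≤ k → ∀ x y : ZK,
    (p ^ a) • x + (p ^ (k + a)) • y ∈ F (d * Dg p k a + 1) →
      ∃ z : ZK, x + (p ^ k) • z ∈ F (d + 1)

/-- JTF (uses SAT; Helper25_ZOL.Fant for `F (d + 1) ≤ F d`).  Let `J = ⋂ (d, N) (F d + N ZK)`.  If
`n x ∈ J` with `n ≥ 1` then `x ∈ J`.
Proof.  Induction on the number of prime factors of `n` (`Nat.recOnMul` / `induction_on_primes`): let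
`n = p` be prime.  Given `d, N`; replacing `N` by `p N` (stronger) write `N = p ^ k * N'`, `k ≥ 1`,
`N'` prime to `p`; `G = F (d + 1) ≤ F d`.  SAT with `a = 1` and the hypothesis for
`d * Dg p k 1 + 1` and `p ^ (k + 1)`: `x ∈ G + p ^ k ZK`.  Also `p x ∈ G + N' ZK`, and
`1 = u p + w N'`, so `x = u (p x) + N' (w x) ∈ G + N' ZK`.  Finally `1 = α p ^ k + β N'` and
`p ^ k x ∈ G + N ZK` (from `x ∈ G + N' ZK`), `N' x ∈ G + N ZK` (from `x ∈ G + p ^ k ZK`), hence
`x ∈ G + N ZK`. -/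
def JtfStmt : Prop :=
  ∀ (n : ℕ) (x : ZK), 0 < n →
    (∀ d N : ℕ, 0 < N → ∃ y : ZK, n • x + N • y ∈ F d) →
      ∀ d N : ℕ, 0 < N → ∃ y : ZK, x + N • y ∈ F d

/-- CRT (uses TYP).  Lifting for composite moduli: every `ℤ / n`-valued invariant of type `d` is the
reduction of a `ℤ / N`-valued invariant of finite type, for every multiple `N ≥ 1` of `n`; the type is
`d * D` with `D` independent of `v` and `d`.
Proof.  Induction on `N` (`Nat.recOnPosPrimePosCoprime`): for a prime power `N = p ^ m`,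
`n = p ^ k`: `k = 0`: `W = 0`; `k ≥ 1`: `W` = class of `V` modulo `p ^ m`, TYP with
`a = m - k` (and `F (d * Dg p k a + 1)`).  For `N = N₁ N₂` coprime: `n = n₁ n₂`, `nᵢ = gcd(n, Nᵢ)`,
lift `v mod nᵢ` to `ℤ / Nᵢ` and use `ZMod.chineseRemainder`; `D = max D₁ D₂` and
`F` is decreasing. -/
def CrtStmt : Prop :=
  ∀ n N : ℕ, 0 < N → ∀ hn : n ∣ N, ∃ D : ℕ, ∀ (d : ℕ) (v : ZK →+ ZMod n), (∀ x ∈ F (d + 1), v x = 0) →
    ∃ W : ZK →+ ZMod N, (∀ x ∈ F (d * D + 1), W x = 0) ∧ ∀ x, ZMod.castHom hn (ZMod n) (W x) = v x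

/-- FIN (uses TYP, SAT, JTF, CRT): the statement of the hand-in. -/
def FinStmt : Prop :=
  (∀ (p k d : ℕ), p.Prime → 1 ≤ k → ∀ v : ZK →+ ZMod (p ^ k), (∀ x ∈ F (d + 1), v x = 0) →
    ∃ V : ZK →+ ℤ, (∀ x : ZK, (V x : ZMod (p ^ k)) = v x) ∧
      ∀ a : ℕ, ∀ x ∈ F (d * (p ^ (k - 1) * (1 + (p - 1) * a)) + 1), ((p : ℤ) ^ (k + a)) ∣ V x) ∧
  (∀ n N : ℕ, 0 < N → ∀ hn : n ∣ N, ∃ D : ℕ, ∀ (d : ℕ) (v : ZK →+ ZMod n),
    (∀ x ∈ F (d + 1), v x = 0) →
      ∃ W : ZK →+ ZMod N, (∀ x ∈ F (d * D + 1), W x = 0) ∧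
        ∀ x, ZMod.castHom hn (ZMod n) (W x) = v x) ∧
  (∀ (p k a d : ℕ), p.Prime → 1 ≤ k → ∀ x y : ZK,
    (p ^ a) • x + (p ^ (k + a)) • y ∈ F (d * (p ^ (k - 1) * (1 + (p - 1) * a)) + 1) →
      ∃ z : ZK, x + (p ^ k) • z ∈ F (d + 1)) ∧
  (∀ (n : ℕ) (x : ZK), 0 < n → (∀ d N : ℕ, 0 < N → ∃ y : ZK, n • x + N • y ∈ F d) →
    ∀ d N : ℕ, 0 < N → ∃ y : ZK, x + N • y ∈ F d)

end Pool.Agent.VLF
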